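import Pool.Agent.V5helper17.ZM.PUS

set_option autoImplicit false

open scoped Matrix Pointwise

namespace Pool.Agent.V5helper17.ZM

open Pool.Agent.H919R4.ZS Pool.Agent.TH38.CX Pool.Agent.V5helper87.ZM

noncomputable section

variable {G : Type} [Group G] {C : Subgroup G} {A B : Type} [NormedRing A] [NormedRing B]
  (fr : Frame C A B)

/-- the difference of `p` and the representative of its coset -/
def dif (C : Subgroup G) (p : G) : C :=
  ⟨(QuotientGroup.mk p : G ⧸ C).out⁻¹ * p, QuotientGroup.eq.1 (QuotientGroup.out_eq' _)⟩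

theorem out_mul_dif (p : G) : (QuotientGroup.mk p : G ⧸ C).out * (dif C p : G) = p := by
  show _ * (_⁻¹ * p) = p
  rw [mul_inv_cancel_left]

theorem incl_sg (c : C) : incl C (sg c) = sg (c : G) := by
  unfold sg
  simp [incl]

theorem ev_rep (y : A) (p : G) :
    fr.e (y * fr.α (sg p)) = ev fr y (QuotientGroup.mk p) * fr.β (sg (dif C p)) := by
  have h1 : fr.α (sg p) = fr.α (sg (QuotientGroup.mk p : G ⧸ C).out) * fr.ψ (fr.β (sg (dif C p))) := by
    rw [fr.ψ_β, incl_sg, ← map_mul, sg_mul, out_mul_dif]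
  rw [h1, ← mul_assoc, fr.e_mul_ψ]
  rfl

/-- `k (c g) = c k g` -/
def Eq1 (k : G → ZG C) : Prop := ∀ (c : C) (g : G), k (c * g) = sg c * k g

theorem rep_mul (y : A) {k : G → ZG C} (hk : Eq1 k) (p : G) :
    ev fr y (QuotientGroup.mk p) * fr.β (k (QuotientGroup.mk p : G ⧸ C).out⁻¹) =
      fr.e (y * fr.α (sg p)) * fr.β (k p⁻¹) := by
  rw [ev_rep, mul_assoc, ← map_mul]
  congr 2
  have h1 : (QuotientGroup.mk p : G ⧸ C).out⁻¹ = (dif C p : G) * p⁻¹ := by
    show _ = _⁻¹ * p * p⁻¹
    rw [mul_inv_cancel_right]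
  rw [h1, hk]

theorem ev_mul_sg (y : A) (h : G) (q : G ⧸ C) :
    ev fr (y * fr.α (sg h)) q = fr.e (y * fr.α (sg (h * q.out))) := by
  show fr.e (y * fr.α (sg h) * fr.α (sg q.out)) = _
  rw [mul_assoc, ← map_mul, sg_mul]

theorem ps_mul_sg (y : A) {k : G → ZG C} (hk : Eq1 k) (h : G) :
    ps fr (y * fr.α (sg h)) k = ps fr y (fun g => k (g * h)) := by
  unfold ps
  rw [← finsum_comp_equiv (MulAction.toPerm h⁻¹ : Equiv.Perm (G ⧸ C))]
  refine finsum_congr fun q => ?_
  have h1 : (MulAction.toPerm h⁻¹ : Equiv.Perm (G ⧸ C)) q = QuotientGroup.mk (h⁻¹ * q.out) := by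
    have h2 : (QuotientGroup.mk q.out : G ⧸ C) = q := QuotientGroup.out_eq' q
    conv_lhs => rw [← h2]
    rfl
  rw [h1, rep_mul fr _ hk, mul_assoc y, ← map_mul, sg_mul, mul_inv_cancel_left, mul_inv_rev, inv_inv]
  rfl

theorem supp_mul_sg {y : A} (hy : (Function.support (ev fr y)).Finite) (h : G) :
    (Function.support (ev fr (y * fr.α (sg h)))).Finite := by
  have h1 : Function.support (ev fr (y * fr.α (sg h))) ⊆
      (MulAction.toPerm h : Equiv.Perm (G ⧸ C)) ⁻¹' Function.support (ev fr y) := by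
    intro q hq
    show ev fr y _ ≠ 0
    intro h0
    apply hq
    rw [ev_mul_sg, ev_rep]
    have h2 : (MulAction.toPerm h : Equiv.Perm (G ⧸ C)) q = QuotientGroup.mk (h * q.out) := by
      have h3 : (QuotientGroup.mk q.out : G ⧸ C) = q := QuotientGroup.out_eq' q
      conv_lhs => rw [← h3]
      rfl
    rw [← h2, h0, zero_mul]
  exact (hy.preimage (Equiv.injective _).injOn).subset h1

theorem supp_add {y y' : A} (hy : (Function.support (ev fr y)).Finite)
    (hy' : (Function.support (ev fr y')).Finite) : (Function.support (ev fr (y + y'))).Finite := by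
  rw [ev_add]
  exact (hy.union hy').subset (Function.support_add _ _)

theorem ev_zero : ev fr 0 = 0 := by
  funext q
  show fr.e (0 * _) = 0
  rw [zero_mul, map_zero]

theorem ev_zsmul (z : ℤ) (y : A) : ev fr (z • y) = z • ev fr y := by
  funext q
  show fr.e ((z • y) * _) = z • fr.e (y * _)
  rw [smul_mul_assoc, map_zsmul]

theorem supp_zsmul {y : A} (hy : (Function.support (ev fr y)).Finite) (z : ℤ) :
    (Function.support (ev fr (z • y))).Finite := by
  refine hy.subset fun q hq h0 => hq ?_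
  rw [ev_zsmul, Pi.smul_apply, h0, smul_zero]

theorem ps_add {y y' : A} (hy : (Function.support (ev fr y)).Finite)
    (hy' : (Function.support (ev fr y')).Finite) (k : G → ZG C) :
    ps fr (y + y') k = ps fr y k + ps fr y' k := by
  have h := ps_sub fr (supp_add fr hy hy') hy' k
  rw [add_sub_cancel_right] at h
  rw [h, sub_add_cancel]

theorem ps_zero (k : G → ZG C) : ps fr (0 : A) k = 0 := by
  unfold ps
  rw [ev_zero]
  simp

theorem ps_zsmul {y : A} (hy : (Function.support (ev fr y)).Finite) (z : ℤ) (k : G → ZG C) :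
    ps fr (z • y) k = z • ps fr y k := by
  have h1 : Function.support (ev fr y) ⊆ hy.toFinset := by rw [Set.Finite.coe_toFinset]
  have h2 : Function.support (ev fr (z • y)) ⊆ hy.toFinset := by
    rw [Set.Finite.coe_toFinset]
    intro q hq h0
    apply hq
    rw [ev_zsmul, Pi.smul_apply, h0, smul_zero]
  rw [ps_eq fr _ h1, ps_eq fr _ h2, Finset.smul_sum]
  refine Finset.sum_congr rfl fun q _ => ?_
  rw [ev_zsmul, Pi.smul_apply, smul_mul_assoc]

theorem ps_sum_right {ι : Type} {y : A} (hy : (Function.support (ev fr y)).Finite) (s : Finset ι)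
    (k : ι → G → ZG C) : ps fr y (fun g => ∑ i ∈ s, k i g) = ∑ i ∈ s, ps fr y (k i) := by
  have h1 : Function.support (ev fr y) ⊆ hy.toFinset := by rw [Set.Finite.coe_toFinset]
  simp only [ps_eq fr _ h1, map_sum, Finset.mul_sum]
  rw [Finset.sum_comm]

theorem ps_add_right {y : A} (hy : (Function.support (ev fr y)).Finite) (k k' : G → ZG C) :
    ps fr y (fun g => k g + k' g) = ps fr y k + ps fr y k' := by
  have h1 : Function.support (ev fr y) ⊆ hy.toFinset := by rw [Set.Finite.coe_toFinset]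
  simp only [ps_eq fr _ h1, map_add, mul_add, Finset.sum_add_distrib]

theorem ps_zero_right (y : A) : ps fr y (fun _ => 0) = 0 := by
  unfold ps
  simp

theorem ps_zsmul_right {y : A} (hy : (Function.support (ev fr y)).Finite) (z : ℤ) (k : G → ZG C) :
    ps fr y (fun g => z • k g) = z • ps fr y k := by
  have h1 : Function.support (ev fr y) ⊆ hy.toFinset := by rw [Set.Finite.coe_toFinset]
  rw [ps_eq fr _ h1, ps_eq fr _ h1, Finset.smul_sum]
  refine Finset.sum_congr rfl fun q _ => ?_
  rw [map_zsmul, mul_smul_comm]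

theorem ps_mul_right {y : A} (hy : (Function.support (ev fr y)).Finite) (k : G → ZG C) (r : ZG C) :
    ps fr y (fun g => k g * r) = ps fr y k * fr.β r := by
  have h1 : Function.support (ev fr y) ⊆ hy.toFinset := by rw [Set.Finite.coe_toFinset]
  rw [ps_eq fr _ h1, ps_eq fr _ h1, Finset.sum_mul]
  refine Finset.sum_congr rfl fun q _ => ?_
  rw [map_mul, mul_assoc]

theorem ps_mul {y : A} (hy : (Function.support (ev fr y)).Finite) {k : G → ZG C} (hk : Eq1 k)
    (r : ZG G) : (Function.support (ev fr (y * fr.α r))).Finite ∧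
      ps fr (y * fr.α r) k = ps fr y (fun g => lin (fun h => k (g * h)) r) := by
  induction r using MonoidAlgebra.induction_linear with
  | zero =>
    rw [map_zero, mul_zero, ps_zero, ev_zero]
    refine ⟨by simp, ?_⟩
    simp only [lin_zero]
    rw [ps_zero_right]
  | add a b ha hb =>
    rw [map_add, mul_add]
    refine ⟨supp_add fr ha.1 hb.1, ?_⟩
    rw [ps_add fr ha.1 hb.1, ha.2, hb.2, ← ps_add_right fr hy]
    simp only [lin_add]
  | single m z =>
    have h1 : (MonoidAlgebra.single m z : ZG G) = z • sg m := by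
      unfold sg
      rw [MonoidAlgebra.smul_single, smul_eq_mul, mul_one]
    rw [h1, map_zsmul, mul_smul_comm]
    refine ⟨supp_zsmul fr (supp_mul_sg fr hy m) z, ?_⟩
    rw [ps_zsmul fr (supp_mul_sg fr hy m), ps_mul_sg fr y hk, ← ps_zsmul_right fr hy]
    congr 1
    funext g
    rw [← h1, lin_single]

theorem t_PUC : S_PUC := by
  intro G _ C A B _ _ fr m m' n n' K K' D E hK hK' hD x T hT hx
  have hxf : ∀ a, (Function.support (ev fr (x a))).Finite := fun a => ev_supp fr hT (hx a)
  have hK1 : ∀ b j, Eq1 (fun g => K g b j) := fun b j c g => hK c g b j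
  have hsum : ∀ (s : Finset (Fin m')) (b : Fin m) (j : Fin n),
      (Function.support (ev fr (∑ a ∈ s, x a * fr.α (D a b)))).Finite ∧
      ps fr (∑ a ∈ s, x a * fr.α (D a b)) (fun g => K g b j) =
        ∑ a ∈ s, ps fr (x a) (fun g => lin (fun h => K (g * h) b j) (D a b)) := by
    classical
    intro s b j
    induction s using Finset.induction_on with
    | empty =>
      rw [Finset.sum_empty, Finset.sum_empty, ev_zero, ps_zero]
      exact ⟨by simp, rfl⟩
    | insert a s ha ih =>
      rw [Finset.sum_insert ha, Finset.sum_insert ha]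
      have h1 := ps_mul fr (hxf a) (hK1 b j) (D a b)
      exact ⟨supp_add fr h1.1 ih.1, by rw [ps_add fr h1.1 ih.1, h1.2, ih.2]⟩
  funext j
  have hv : ∀ b, (x ᵥ* D.map fr.α) b = ∑ a, x a * fr.α (D a b) := fun b => rfl
  rw [push_eq fr K _ (fun b => by rw [hv]; exact (hsum _ b j).1)]
  have hL : ∑ b, ps fr ((x ᵥ* D.map fr.α) b) (fun g => K g b j) =
      ∑ a, ps fr (x a) (fun g => ∑ b, lin (fun h => K (g * h) b j) (D a b)) := by
    calc ∑ b, ps fr ((x ᵥ* D.map fr.α) b) (fun g => K g b j)
        = ∑ b, ∑ a, ps fr (x a) (fun g => lin (fun h => K (g * h) b j) (D a b)) :=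
          Finset.sum_congr rfl fun b _ => by rw [hv]; exact (hsum _ b j).2
      _ = ∑ a, ∑ b, ps fr (x a) (fun g => lin (fun h => K (g * h) b j) (D a b)) := Finset.sum_comm
      _ = _ := Finset.sum_congr rfl fun a _ => (ps_sum_right fr (hxf a) _ _).symm
  rw [hL]
  have hR : (push fr K' x ᵥ* E.map fr.β) j = ∑ l, push fr K' x l * fr.β (E l j) := rfl
  rw [hR]
  have hR2 : ∀ l, push fr K' x l * fr.β (E l j) = ∑ a, ps fr (x a) (fun g => K' g a l * E l j) := by
    intro l
    rw [push_eq fr K' x hxf, Finset.sum_mul]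
    exact Finset.sum_congr rfl fun a _ => (ps_mul_right fr (hxf a) _ _).symm
  rw [Finset.sum_congr rfl fun l _ => hR2 l, Finset.sum_comm]
  refine Finset.sum_congr rfl fun a _ => ?_
  rw [← ps_sum_right fr (hxf a)]
  congr 1
  funext g
  have h := congrFun (hD g a) j
  rw [Finset.sum_apply] at h
  rw [Finset.sum_congr rfl fun b _ => (lin_apply (fun h => K (g * h) b) (D a b) j)] at h
  rw [h]
  rfl

end

end Pool.Agent.V5helper17.ZM
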