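import Pool.Agent.V5helper87.ZM.Stm

set_option autoImplicit false

open scoped Matrix Pointwise

namespace Pool.Agent.V5helper17.ZM

open Pool.Agent.H919R4.ZS Pool.Agent.TH38.CX Pool.Agent.V5helper87.ZM

noncomputable section

variable {G : Type} [Group G] {C : Subgroup G} {A B : Type} [NormedRing A] [NormedRing B]
  (fr : Frame C A B)

/-- the components of `y` -/
def ev (y : A) : G ⧸ C → B := fun q => fr.e (y * fr.α (sg q.out))

/-- the value of the map given by `k` at `y` -/
def ps (y : A) (k : G → ZG C) : B := ∑ᶠ q : G ⧸ C, ev fr y q * fr.β (k q.out⁻¹)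

theorem ev_supp_sub {y : A} {T : Set G} (hy : Supp fr y T) :
    Function.support (ev fr y) ⊆ cs C '' T := by
  intro q hq
  by_contra hn
  apply hq
  have h1 := hy q.out⁻¹ (fun s hs hmem => hn ⟨s, hs, ?_⟩)
  · rw [inv_inv] at h1
    exact h1
  · have h2 : (QuotientGroup.mk q.out : G ⧸ C) = QuotientGroup.mk s⁻¹ := QuotientGroup.eq.2 hmem
    rw [QuotientGroup.out_eq'] at h2
    exact h2.symm

theorem ev_supp {y : A} {T : Set G} (hT : T.Finite) (hy : Supp fr y T) :
    (Function.support (ev fr y)).Finite :=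
  (hT.image (cs C)).subset (ev_supp_sub fr hy)

theorem ps_eq {y : A} (Q : Finset (G ⧸ C)) (hQ : Function.support (ev fr y) ⊆ Q) (k : G → ZG C) :
    ps fr y k = ∑ q ∈ Q, ev fr y q * fr.β (k q.out⁻¹) :=
  finsum_eq_sum_of_support_subset _ fun q hq => hQ fun h0 => hq (by
    show ev fr y q * _ = 0
    rw [h0, zero_mul])

theorem push_eq {m n : ℕ} (K : G → Fin m → Fin n → ZG C) (x : Fin m → A)
    (hx : ∀ a, (Function.support (ev fr (x a))).Finite) (j : Fin n) :
    push fr K x j = ∑ a, ps fr (x a) (fun g => K g a j) := by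
  show (∑ᶠ q : G ⧸ C, ∑ a, ev fr (x a) q * fr.β (K q.out⁻¹ a j)) = _
  rw [finsum_sum_comm]
  · rfl
  · intro a _
    refine (hx a).subset fun q hq h0 => hq ?_
    show ev fr (x a) q * _ = 0
    rw [h0, zero_mul]

theorem ev_add (y y' : A) : ev fr (y + y') = ev fr y + ev fr y' := by
  funext q
  show fr.e ((y + y') * _) = fr.e (y * _) + fr.e (y' * _)
  rw [add_mul, map_add]

theorem ev_sub (y y' : A) : ev fr (y - y') = ev fr y - ev fr y' := by
  funext q
  show fr.e ((y - y') * _) = fr.e (y * _) - fr.e (y' * _)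
  rw [sub_mul, map_sub]

theorem ps_sub {y y' : A} (hy : (Function.support (ev fr y)).Finite)
    (hy' : (Function.support (ev fr y')).Finite) (k : G → ZG C) :
    ps fr (y - y') k = ps fr y k - ps fr y' k := by
  classical
  have h1 : Function.support (ev fr y) ⊆ (hy.toFinset ∪ hy'.toFinset : Finset (G ⧸ C)) := by
    intro q hq; simp only [Finset.coe_union, Set.Finite.coe_toFinset]; exact Or.inl hq
  have h2 : Function.support (ev fr y') ⊆ (hy.toFinset ∪ hy'.toFinset : Finset (G ⧸ C)) := by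
    intro q hq; simp only [Finset.coe_union, Set.Finite.coe_toFinset]; exact Or.inr hq
  have h3 : Function.support (ev fr (y - y')) ⊆ (hy.toFinset ∪ hy'.toFinset : Finset (G ⧸ C)) := by
    intro q hq
    by_contra hn
    have h4 : ev fr y q = 0 := by by_contra h; exact hn (h1 h)
    have h5 : ev fr y' q = 0 := by by_contra h; exact hn (h2 h)
    apply hq
    rw [ev_sub, Pi.sub_apply, h4, h5, sub_zero]
  rw [ps_eq fr _ h1, ps_eq fr _ h2, ps_eq fr _ h3, ← Finset.sum_sub_distrib]
  refine Finset.sum_congr rfl fun q _ => ?_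
  rw [ev_sub, Pi.sub_apply, sub_mul]

theorem t_PUS : S_PUS := by
  intro G _ C A B _ _ fr m n K
  constructor
  · intro x y T T' hT hT' hx hy
    funext j
    have hxf : ∀ a, (Function.support (ev fr (x a))).Finite := fun a => ev_supp fr hT (hx a)
    have hyf : ∀ a, (Function.support (ev fr (y a))).Finite := fun a => ev_supp fr hT' (hy a)
    have hxy : ∀ a, (Function.support (ev fr ((x - y) a))).Finite := by
      intro a
      refine ((hxf a).union (hyf a)).subset fun q hq => ?_
      by_contra hn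
      rw [Set.mem_union, not_or, Function.notMem_support, Function.notMem_support] at hn
      apply hq
      show ev fr (x a - y a) q = 0
      rw [ev_sub, Pi.sub_apply, hn.1, hn.2, sub_zero]
    rw [Pi.sub_apply, push_eq fr K _ hxy, push_eq fr K _ hxf, push_eq fr K _ hyf,
      ← Finset.sum_sub_distrib]
    exact Finset.sum_congr rfl fun a _ => ps_sub fr (hxf a) (hyf a) _
  · intro x T hT hx r R hr hxr hQR j
    classical
    have hfin : (cs C '' T).Finite := hT.image _
    set Q : Finset (G ⧸ C) := hfin.toFinset with hQdef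
    have hQ : ∀ a, Function.support (ev fr (x a)) ⊆ Q := by
      intro a
      rw [hQdef, Set.Finite.coe_toFinset]
      exact ev_supp_sub fr (hx a)
    rw [push_eq fr K x (fun a => ev_supp fr hT (hx a))]
    have h1 : ∑ a, ps fr (x a) (fun g => K g a j) =
        ∑ q ∈ Q, ∑ a, ev fr (x a) q * fr.β (K q.out⁻¹ a j) := by
      rw [Finset.sum_comm]
      exact Finset.sum_congr rfl fun a _ => ps_eq fr Q (hQ a) _
    rw [h1]
    have h2 : ∀ a q, ‖ev fr (x a) q‖ ≤ r := by
      intro a q
      calc ‖ev fr (x a) q‖ ≤ ‖x a * fr.α (sg q.out)‖ := fr.norm_e _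
        _ ≤ ‖x a‖ * ‖fr.α (sg q.out)‖ := norm_mul_le _ _
        _ ≤ r * 1 := mul_le_mul (hxr a) (fr.norm_α _) (norm_nonneg _) hr
        _ = r := mul_one r
    calc ‖∑ q ∈ Q, ∑ a, ev fr (x a) q * fr.β (K q.out⁻¹ a j)‖
        ≤ ∑ q ∈ Q, ∑ a, ‖ev fr (x a) q * fr.β (K q.out⁻¹ a j)‖ :=
          (norm_sum_le _ _).trans (Finset.sum_le_sum fun q _ => norm_sum_le _ _)
      _ ≤ ∑ q ∈ Q, ∑ a, r * ∑ b, ‖fr.β (K q.out⁻¹ a b)‖ := by
          refine Finset.sum_le_sum fun q _ => Finset.sum_le_sum fun a _ => ?_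
          refine (norm_mul_le _ _).trans (mul_le_mul (h2 a q) ?_ (norm_nonneg _) hr)
          exact Finset.single_le_sum (f := fun b => ‖fr.β (K q.out⁻¹ a b)‖)
            (fun b _ => norm_nonneg _) (Finset.mem_univ j)
      _ = r * ∑ q ∈ Q, ∑ a, ∑ b, ‖fr.β (K q.out⁻¹ a b)‖ := by
          rw [Finset.mul_sum]
          exact Finset.sum_congr rfl fun q _ => by rw [Finset.mul_sum]
      _ ≤ r * R := by
          refine mul_le_mul_of_nonneg_left (hQR Q fun q hq => ?_) hr
          rw [hQdef, Set.Finite.mem_toFinset] at hq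
          exact hq

end

end Pool.Agent.V5helper17.ZM
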